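import Mathlib
import Pool.Agent.H5R2.NL.UpC
import Pool.Agent.H5R2.NL.Law2
import Pool.Agent.H5R2.NL.SobA

/-!
# The constants of the `N^{5/3}` law are positive
-/

set_option autoImplicit false

noncomputable section

namespace Pool.Agent.Y13.NL

open MeasureTheory Metric Pool.Agent.H5R2.NL
open scoped ENNReal

/-- the unit cube -/
abbrev Q : Set E3 := {x : E3 | ∀ i, (0 : E3) i ≤ x i ∧ x i < (0 : E3) i + 1}

theorem Q_meas : MeasurableSet Q := law2_cube_meas 0 1

theorem Q_vol : volume Q = 1 := by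
  have h := law2_cube_vol 0 1 zero_le_one
  rw [one_pow, ENNReal.ofReal_one] at h
  exact h

/-- one uniformly distributed point in the unit cube -/
def oneLaw : Law (cubeI 0 1 1) where
  Ω := E3
  mΩ := inferInstance
  P := volume.restrict Q
  prob := ⟨by rw [Measure.restrict_apply_univ]; exact Q_vol⟩
  M := 1
  X := fun ω _ => ω
  a := fun _ _ => 1
  hX := by fun_prop
  ha := measurable_const
  ha01 := fun _ _ => Or.inr rfl
  distinct := Filter.Eventually.of_forall fun ω i j hij => absurd (Subsingleton.elim i j) hij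
  intensity := by
    intro f hf
    simp only [Finset.univ_unique, Finset.sum_singleton, ENNReal.ofReal_one, one_mul]
    rw [← lintegral_indicator Q_meas]
    refine lintegral_congr fun x => ?_
    unfold cubeI
    by_cases h : x ∈ Q
    · rw [Set.indicator_of_mem h, Set.indicator_of_mem h]; simp
    · rw [Set.indicator_of_notMem h, Set.indicator_of_notMem h]; simp
  integ := by
    have : (fun ω : E3 => ∑ i : Fin 1, ∑ j : Fin 1, (1 : ℝ) * 1 / ‖ω - ω‖) = fun _ => 0 := by
      funext ω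
      simp
    rw [this]
    exact integrable_zero _ _ _

theorem norm_le_of_mem {x y : E3} (hx : x ∈ Q) (hy : y ∈ Q) : ‖x - y‖ ≤ Real.sqrt 3 := by
  rw [EuclideanSpace.norm_eq]
  refine Real.sqrt_le_sqrt ?_
  have h : ∀ i, ‖(x - y) i‖ ^ 2 ≤ 1 := by
    intro i
    have h1 := hx i
    have h2 := hy i
    simp only [PiLp.zero_apply, zero_add] at h1 h2
    have h3 : |(x - y) i| ≤ 1 := by
      rw [abs_le]
      simp only [PiLp.sub_apply]
      constructor <;> linarith
    rw [Real.norm_eq_abs]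
    nlinarith [abs_nonneg ((x - y) i)]
  calc ∑ i, ‖(x - y) i‖ ^ 2 ≤ ∑ i : Fin 3, (1 : ℝ) := Finset.sum_le_sum fun i _ => h i
    _ = 3 := by simp

theorem nice_Q : Nice (cubeI 0 1 1) := law2_nice_cube 0 1 1 zero_le_one zero_le_one

theorem self_energy_ge : 1 / Real.sqrt 3 ≤
    ∫ x, ∫ y, cubeI 0 1 1 x * cubeI 0 1 1 y / ‖x - y‖ := by
  have hI := nice_Q
  have hF := l1a_F_int (cubeI 0 1 1) (cubeI 0 1 1) hI hI
  have h3 : 0 < Real.sqrt 3 := Real.sqrt_pos.2 (by norm_num)
  have hint : ∫ x, cubeI 0 1 1 x = 1 := by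
    rw [law2_int_cube 0 1 1 zero_le_one]; norm_num
  have hcI : Integrable fun z : E3 × E3 => (1 / Real.sqrt 3) * (cubeI 0 1 1 z.1 * cubeI 0 1 1 z.2) :=
    (hI.int.mul_prod hI.int).const_mul _
  have e1 : ∫ x, ∫ y, cubeI 0 1 1 x * cubeI 0 1 1 y / ‖x - y‖ =
      ∫ z : E3 × E3, l1a_F (cubeI 0 1 1) (cubeI 0 1 1) z :=
    (l1a_F_iter (cubeI 0 1 1) (cubeI 0 1 1) hI hI)
  have e2 : ∫ z : E3 × E3, (1 / Real.sqrt 3) * (cubeI 0 1 1 z.1 * cubeI 0 1 1 z.2) =
      1 / Real.sqrt 3 := by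
    rw [integral_const_mul, Measure.volume_eq_prod, integral_prod_mul, hint]
    ring
  rw [e1, ← e2]
  refine integral_mono_ae hcI hF ?_
  have hd : ∀ᵐ z : E3 × E3, z.1 ≠ z.2 := by
    have hms : MeasurableSet {z : E3 × E3 | z.1 ≠ z.2} :=
      (measurableSet_eq_fun measurable_fst measurable_snd).compl
    rw [Measure.volume_eq_prod, Measure.ae_prod_iff_ae_ae hms]
    refine Filter.Eventually.of_forall fun x => ?_
    have : ∀ᵐ y : E3, y ≠ x := by
      rw [ae_iff]
      simp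
    filter_upwards [this] with y hy
    exact fun h => hy h.symm
  filter_upwards [hd] with z hz
  unfold l1a_F
  by_cases h1 : z.1 ∈ Q
  · by_cases h2 : z.2 ∈ Q
    · unfold cubeI
      rw [Set.indicator_of_mem h1, Set.indicator_of_mem h2]
      have hp : 0 < ‖z.1 - z.2‖ := norm_pos_iff.2 (sub_ne_zero.2 hz)
      have := norm_le_of_mem h1 h2
      simp only [mul_one]
      exact one_div_le_one_div_of_le hp this
    · unfold cubeI
      rw [Set.indicator_of_notMem h2]; simp
  · unfold cubeI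
    rw [Set.indicator_of_notMem h1]; simp

theorem cstar_ge : 1 / (2 * Real.sqrt 3) ≤ cstar := by
  refine le_csSup cstar_bdd ⟨1, one_pos, oneLaw.var, oneLaw, ?_, le_rfl⟩
  have h := self_energy_ge
  unfold Law.en
  have h0 : ∫ ω : E3, ∑ i : Fin 1, ∑ j : Fin 1, (1 : ℝ) * 1 / ‖ω - ω‖ ∂(volume.restrict Q) = 0 := by
    simp
  have h1 : (@integral oneLaw.Ω ℝ _ _ oneLaw.mΩ oneLaw.P fun ω => ∑ i, ∑ j,
      oneLaw.a ω i * oneLaw.a ω j / ‖oneLaw.X ω i - oneLaw.X ω j‖) = 0 := h0
  have e : 1 / (2 * Real.sqrt 3) = 1 / 2 * (1 / Real.sqrt 3) := by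
    rw [one_div_mul_one_div]
  simp only [h1]
  rw [e]
  linarith

theorem cstar_pos : 0 < cstar := lt_of_lt_of_le (by positivity) cstar_ge

theorem gam_pos : 0 < Gam := by
  obtain ⟨u, h1, h2, h3⟩ := up_exists_state
  have hT := up_T_pos u h1 h2 h3
  have hX : 0 < ∫ x, ‖u x‖ ^ (8 / 3 : ℝ) := by
    have hne : ∃ x, u x ≠ 0 := by
      by_contra h
      push Not at h
      simp [h] at h3
    obtain ⟨x, hx⟩ := hne
    refine Continuous.integral_pos_of_hasCompactSupport_nonneg_nonzero (x := x) ?_ ?_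
      (fun x => by positivity) ?_
    · exact (h1.continuous.norm).rpow_const fun x => Or.inr (by norm_num)
    · exact h2.comp_left (g := fun w : ℂ => ‖w‖ ^ (8 / 3 : ℝ))
        (by simp [Real.zero_rpow (show (8 / 3 : ℝ) ≠ 0 by norm_num)])
    · exact (Real.rpow_pos_of_pos (norm_pos_iff.2 hx) _).ne'
  refine lt_of_lt_of_le ?_ (le_csSup gam_bdd ⟨u, h1, h2, h3, rfl⟩)
  positivity

end Pool.Agent.Y13.NL
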