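import Mathlib
import Pool.Agent.H5R2.NL.UpC
import Pool.Agent.H5R2.NL.Law2
import Pool.Agent.H5R2.NL.SobA

/-!
# Profiles of which only the fraction `p` is near the origin
-/

set_option autoImplicit false

noncomputable section

namespace Pool.Agent.Y13.NL

open MeasureTheory Metric Pool.Agent.H5R2.NL
open scoped ENNReal Topology

/-- smooth compactly supported normalised functions on `ℝ³` -/
structure Prof (φ : E3 → ℂ) : Prop where
  smooth : ContDiff ℝ ((⊤ : ℕ∞) : WithTop ℕ∞) φ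
  compact : HasCompactSupport φ
  norm : ∫ x, ‖φ x‖ ^ 2 = 1

theorem nice_sq (φ : E3 → ℂ) (hs : ContDiff ℝ ((⊤ : ℕ∞) : WithTop ℕ∞) φ)
    (hc : HasCompactSupport φ) : Nice (fun x => ‖φ x‖ ^ 2) := by
  have hcont := hs.continuous
  obtain ⟨B, hB⟩ := hc.exists_bound_of_continuous hcont
  refine ⟨by fun_prop, fun x => by positivity, ⟨B ^ 2, fun x => ?_⟩, up_int_w φ hcont hc⟩
  exact pow_le_pow_left₀ (norm_nonneg _) (hB x) 2

theorem pot_bound (I : E3 → ℝ) (hI : Nice I) : ∃ C : ℝ, 0 ≤ C ∧ ∀ R : E3,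
    Integrable (fun x => I x / ‖x - R‖) ∧ ∫ x, I x / ‖x - R‖ ≤ C := by
  obtain ⟨C, hC, h⟩ := l1a_pot I hI
  have hm := hI.meas
  have hnn : ∀ R x, 0 ≤ I x / ‖x - R‖ := fun R x => div_nonneg (hI.nonneg x) (norm_nonneg _)
  have hmeas : ∀ R : E3, Measurable fun x => I x / ‖x - R‖ := fun R => by fun_prop
  have hl : ∀ R : E3, ∫⁻ x, ENNReal.ofReal (I x / ‖x - R‖) ≤ C := by
    intro R
    refine le_trans (le_of_eq ?_) (h R)
    refine lintegral_congr fun y => ?_
    rw [← ENNReal.ofReal_mul (hI.nonneg y)]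
    congr 1
    rw [norm_sub_rev, div_eq_mul_one_div]
  refine ⟨C.toReal, ENNReal.toReal_nonneg, fun R => ⟨⟨(hmeas R).aestronglyMeasurable, ?_⟩, ?_⟩⟩
  · rw [hasFiniteIntegral_iff_ofReal (ae_of_all _ (hnn R))]
    exact (hl R).trans_lt (lt_top_iff_ne_top.2 hC)
  · rw [integral_eq_lintegral_of_nonneg_ae (ae_of_all _ (hnn R)) (hmeas R).aestronglyMeasurable]
    exact ENNReal.toReal_mono hC (hl R)

theorem gsq_zero_of (u : E3 → ℂ) (x : E3) (h : u =ᶠ[𝓝 x] 0) : gsq u x = 0 := by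
  unfold gsq
  rw [h.fderiv_eq]
  simp

theorem gsq_congr (u v : E3 → ℂ) (x : E3) (h : u =ᶠ[𝓝 x] v) : gsq u x = gsq v x := by
  unfold gsq
  rw [h.fderiv_eq]

/-- the shifted, spread out profile -/
def sh (s : ℝ) (c : E3) (φ : E3 → ℂ) (x : E3) : ℂ := up_sc s φ (x - c)

theorem sh_smooth (s : ℝ) (c : E3) (φ : E3 → ℂ) (h : ContDiff ℝ ((⊤ : ℕ∞) : WithTop ℕ∞) φ) :
    ContDiff ℝ ((⊤ : ℕ∞) : WithTop ℕ∞) (sh s c φ) :=
  (up_sc_smooth s φ h).comp (contDiff_id.sub contDiff_const)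

theorem sh_compact (s : ℝ) (hs : 0 < s) (c : E3) (φ : E3 → ℂ) (h : HasCompactSupport φ) :
    HasCompactSupport (sh s c φ) :=
  (up_sc_compact s hs φ h).comp_homeomorph (Homeomorph.subRight c)

theorem sh_norm (s : ℝ) (hs : 0 < s) (c : E3) (φ : E3 → ℂ) :
    ∫ x, ‖sh s c φ x‖ ^ 2 = ∫ x, ‖φ x‖ ^ 2 := by
  unfold sh
  rw [integral_sub_right_eq_self (fun x => ‖up_sc s φ x‖ ^ 2) c, up_sc_integral_sq s hs]

theorem sh_gsq (s : ℝ) (hs : 0 < s) (c : E3) (φ : E3 → ℂ) (hφ : Differentiable ℝ φ) :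
    ∫ x, gsq (sh s c φ) x = s ^ 2 * ∫ x, gsq φ x := by
  have h : ∀ x, gsq (sh s c φ) x = gsq (up_sc s φ) (x - c) := by
    intro x
    unfold gsq sh
    rw [fderiv_comp_sub]
  simp_rw [h]
  rw [integral_sub_right_eq_self (fun x => gsq (up_sc s φ) x) c, up_sc_integral_gsq s hs φ hφ]

theorem sh_P (s : ℝ) (hs : 0 < s) (c : E3) (φ : E3 → ℂ) (R : E3) :
    up_P (sh s c φ) R = s * up_P φ (s • (R - c)) := by
  have h1 : up_P (sh s c φ) R = up_P (up_sc s φ) (R - c) := by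
    unfold up_P sh
    rw [← integral_sub_right_eq_self (fun x => ‖up_sc s φ x‖ ^ 2 / ‖x - (R - c)‖) c]
    refine integral_congr_ae (Filter.Eventually.of_forall fun x => ?_)
    simp only [sub_sub_sub_cancel_right]
  have h2 : R - c = s⁻¹ • (s • (R - c)) := by
    rw [smul_smul, inv_mul_cancel₀ hs.ne', one_smul]
  rw [h1]
  conv_lhs => rw [h2]
  rw [up_P_sc s hs]

/-- Only the fraction `p` of the new profile stays, the rest is spread out far away. -/
theorem spread (φ : E3 → ℂ) (hφ : Prof φ) (p η : ℝ) (hp0 : 0 ≤ p) (hp1 : p ≤ 1) (hη : 0 < η) :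
    ∃ φ' : E3 → ℂ, Prof φ' ∧ (∫ x, gsq φ' x) ≤ p * (∫ x, gsq φ x) + η ∧
      up_D φ' ≤ p ^ 2 * up_D φ + η ∧ ∀ R, p * up_P φ R ≤ up_P φ' R := by
  obtain ⟨hs, hc, h1⟩ := hφ
  have hcont := hs.continuous
  obtain ⟨C, hC0, hC⟩ := pot_bound _ (nice_sq φ hs hc)
  set T := ∫ x, gsq φ x with hT
  have hT0 : 0 ≤ T := integral_nonneg fun x => Finset.sum_nonneg fun c _ => by positivity
  set s := min 1 (η / (T + C + 1)) with hsdef
  have hs0 : 0 < s := lt_min one_pos (by positivity)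
  have hs1 : s ≤ 1 := min_le_left _ _
  have hsη : s * (T + C + 1) ≤ η := by
    have := min_le_right 1 (η / (T + C + 1))
    rwa [le_div_iff₀ (by positivity)] at this
  -- the support
  obtain ⟨ρ, hρ0, hρ⟩ : ∃ ρ : ℝ, 0 < ρ ∧ ∀ x, ρ < ‖x‖ → φ x = 0 := by
    obtain ⟨r, hr0, hr⟩ := hc.isCompact.isBounded.subset_closedBall_lt 0 0
    refine ⟨r, hr0, fun x hx => ?_⟩
    by_contra hne
    have := hr (subset_tsupport _ hne)
    rw [mem_closedBall_zero_iff] at this
    linarith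
  set c : E3 := EuclideanSpace.single 0 (ρ + 1 + ρ / s) with hcdef
  have hcn : ‖c‖ = ρ + 1 + ρ / s := by
    rw [hcdef, PiLp.norm_single, Real.norm_of_nonneg (by positivity)]
  set φ₂ := sh s c φ with hφ₂
  have hz2 : ∀ x, ‖x‖ < ρ + 1 → φ₂ x = 0 := by
    intro x hx
    rw [hφ₂]
    unfold sh up_sc
    rw [hρ (s • (x - c)), mul_zero]
    rw [norm_smul, Real.norm_of_nonneg hs0.le]
    have h2 : ‖c‖ - ‖x‖ ≤ ‖x - c‖ := by
      rw [norm_sub_rev]; exact norm_sub_norm_le c x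
    have h3 : ρ / s < ‖x - c‖ := by linarith
    rw [div_lt_iff₀ hs0] at h3
    linarith
  have hdich : ∀ x, φ =ᶠ[𝓝 x] 0 ∨ φ₂ =ᶠ[𝓝 x] 0 := by
    intro x
    by_cases hx : ρ < ‖x‖
    · left
      have ho : IsOpen {y : E3 | ρ < ‖y‖} := isOpen_lt continuous_const continuous_norm
      filter_upwards [ho.mem_nhds hx] with y hy
      exact hρ y hy
    · right
      have ho : IsOpen {y : E3 | ‖y‖ < ρ + 1} := isOpen_lt continuous_norm continuous_const
      have hx' : x ∈ {y : E3 | ‖y‖ < ρ + 1} := by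
        show ‖x‖ < ρ + 1
        linarith [not_lt.1 hx]
      filter_upwards [ho.mem_nhds hx'] with y hy
      exact hz2 y hy
  have hs2 : ContDiff ℝ ((⊤ : ℕ∞) : WithTop ℕ∞) φ₂ := sh_smooth s c φ hs
  have hc2 : HasCompactSupport φ₂ := sh_compact s hs0 c φ hc
  have hn2 : ∫ x, ‖φ₂ x‖ ^ 2 = 1 := by rw [hφ₂, sh_norm s hs0, h1]
  have ha2 : Real.sqrt p ^ 2 = p := Real.sq_sqrt hp0
  have hb2 : Real.sqrt (1 - p) ^ 2 = 1 - p := Real.sq_sqrt (by linarith)
  set a : ℝ := Real.sqrt p with ha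
  set b : ℝ := Real.sqrt (1 - p) with hb
  set F : E3 → ℂ := fun x => (a : ℂ) * φ x + (b : ℂ) * φ₂ x with hF
  have hFs : ContDiff ℝ ((⊤ : ℕ∞) : WithTop ℕ∞) F :=
    (contDiff_const.mul hs).add (contDiff_const.mul hs2)
  have hFc : HasCompactSupport F := hc.mul_left.add hc2.mul_left
  have hsq : ∀ x, ‖F x‖ ^ 2 = p * ‖φ x‖ ^ 2 + (1 - p) * ‖φ₂ x‖ ^ 2 := by
    intro x
    rw [hF]
    simp only
    rcases hdich x with h | h
    · have h0 : φ x = 0 := h.eq_of_nhds
      rw [h0, mul_zero, zero_add, norm_mul, Complex.norm_real, Real.norm_eq_abs, mul_pow, sq_abs,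
        hb2]
      simp
    · have h0 : φ₂ x = 0 := h.eq_of_nhds
      rw [h0, mul_zero, add_zero, norm_mul, Complex.norm_real, Real.norm_eq_abs, mul_pow, sq_abs,
        ha2]
      simp
  have hg : ∀ x, gsq F x = p * gsq φ x + (1 - p) * gsq φ₂ x := by
    intro x
    rcases hdich x with h | h
    · have h2 : F =ᶠ[𝓝 x] fun y => (b : ℂ) * φ₂ y := by
        filter_upwards [h] with y hy
        rw [hF]
        simp only
        rw [hy]
        simp
      rw [gsq_congr _ _ _ h2, gsq_zero_of φ x h, mul_zero, zero_add,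
        sob_gsq_smul b φ₂ (hs2.of_le (by exact_mod_cast le_top)) x, hb2]
    · have h2 : F =ᶠ[𝓝 x] fun y => (a : ℂ) * φ y := by
        filter_upwards [h] with y hy
        rw [hF]
        simp only
        rw [hy]
        simp
      rw [gsq_congr _ _ _ h2, gsq_zero_of φ₂ x h, mul_zero, add_zero,
        sob_gsq_smul a φ (hs.of_le (by exact_mod_cast le_top)) x, ha2]
  have hi1 := up_int_w φ hcont hc
  have hi2 := up_int_w φ₂ hs2.continuous hc2
  have hN1 := nice_sq φ hs hc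
  have hN2 := nice_sq φ₂ hs2 hc2
  have hp1' : 0 ≤ 1 - p := by linarith
  have hgi : ∀ u : E3 → ℂ, ContDiff ℝ ((⊤ : ℕ∞) : WithTop ℕ∞) u → HasCompactSupport u →
      Integrable (gsq u) := fun u hu huc =>
    (up_gsq_cont u hu).integrable_of_hasCompactSupport (up_gsq_compact u huc)
  -- the potential of the spread out part
  have hP2 : ∀ R, up_P φ₂ R ≤ s * C := by
    intro R
    rw [hφ₂, sh_P s hs0]
    exact mul_le_mul_of_nonneg_left (hC _).2 hs0.le
  have hP2' : ∀ R, 0 ≤ up_P φ₂ R := fun R => integral_nonneg fun x => by positivity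
  refine ⟨F, ⟨hFs, hFc, ?_⟩, ?_, ?_, ?_⟩
  · simp_rw [hsq]
    rw [integral_add (hi1.const_mul p) (hi2.const_mul (1 - p)), integral_const_mul,
      integral_const_mul, h1, hn2]
    ring
  · simp_rw [hg]
    rw [integral_add ((hgi φ hs hc).const_mul p) ((hgi φ₂ hs2 hc2).const_mul (1 - p)),
      integral_const_mul, integral_const_mul, hφ₂, sh_gsq s hs0 c φ (hs.differentiable (by simp))]
    have h3 : (1 - p) * (s ^ 2 * T) ≤ η := by
      have h4 : s ^ 2 * T ≤ s * T := by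
        refine mul_le_mul_of_nonneg_right ?_ hT0
        nlinarith
      have h5 : (1 - p) * (s ^ 2 * T) ≤ 1 * (s ^ 2 * T) :=
        mul_le_mul_of_nonneg_right (by linarith) (by positivity)
      nlinarith
    linarith
  · have hI : Nice (fun x => p * ‖φ x‖ ^ 2) := by
      obtain ⟨B, hB⟩ := hN1.bdd
      exact ⟨hN1.meas.const_mul p, fun x => by positivity,
        ⟨p * B, fun x => mul_le_mul_of_nonneg_left (hB x) hp0⟩, hN1.int.const_mul p⟩
    have hJ : Nice (fun x => (1 - p) * ‖φ₂ x‖ ^ 2) := by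
      obtain ⟨B, hB⟩ := hN2.bdd
      exact ⟨hN2.meas.const_mul _, fun x => by positivity,
        ⟨(1 - p) * B, fun x => mul_le_mul_of_nonneg_left (hB x) hp1'⟩, hN2.int.const_mul _⟩
    have e1 : up_D F = (∫ x, ∫ y, (p * ‖φ x‖ ^ 2) * (p * ‖φ y‖ ^ 2) / ‖x - y‖) +
        (∫ x, ∫ y, ((1 - p) * ‖φ₂ x‖ ^ 2) * ((1 - p) * ‖φ₂ y‖ ^ 2) / ‖x - y‖) +
        2 * ∫ z, l1a_F (fun x => p * ‖φ x‖ ^ 2) (fun x => (1 - p) * ‖φ₂ x‖ ^ 2) z
          ∂((volume : Measure E3).prod volume) := by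
      rw [← l1a_F_add _ _ hI hJ]
      unfold up_D
      simp_rw [hsq]
    have e2 : (∫ x, ∫ y, (p * ‖φ x‖ ^ 2) * (p * ‖φ y‖ ^ 2) / ‖x - y‖) = p ^ 2 * up_D φ := by
      unfold up_D
      rw [← integral_const_mul]
      refine integral_congr_ae (Filter.Eventually.of_forall fun x => ?_)
      simp only
      rw [← integral_const_mul]
      refine integral_congr_ae (Filter.Eventually.of_forall fun y => ?_)
      simp only
      ring
    -- the inner potential
    have hin : ∀ x, ∫ y, ‖φ₂ y‖ ^ 2 / ‖x - y‖ = up_P φ₂ x := by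
      intro x
      unfold up_P
      refine integral_congr_ae (Filter.Eventually.of_forall fun y => ?_)
      simp only
      rw [norm_sub_rev]
    have hgen : ∀ I : E3 → ℝ, Nice I → ∫ x, ∫ y, I x * ((1 - p) * ‖φ₂ y‖ ^ 2) / ‖x - y‖ ≤
        (∫ x, I x) * ((1 - p) * (s * C)) := by
      intro I hI'
      have e3 : ∀ x, ∫ y, I x * ((1 - p) * ‖φ₂ y‖ ^ 2) / ‖x - y‖ =
          I x * ((1 - p) * up_P φ₂ x) := by
        intro x
        rw [← hin x, ← integral_const_mul, ← integral_const_mul]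
        refine integral_congr_ae (Filter.Eventually.of_forall fun y => ?_)
        simp only
        ring
      rw [← integral_mul_const]
      have hint : Integrable fun x => ∫ y, I x * ((1 - p) * ‖φ₂ y‖ ^ 2) / ‖x - y‖ :=
        (l1a_F_int I _ hI' hJ).integral_prod_left
      refine integral_mono hint (hI'.int.mul_const _) fun x => ?_
      simp only
      rw [e3 x]
      exact mul_le_mul_of_nonneg_left (mul_le_mul_of_nonneg_left (hP2 x) hp1') (hI'.nonneg x)
    have q1 := hgen _ hJ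
    have q2 := hgen _ hI
    rw [l1a_F_iter _ _ hI hJ] at q2
    have i1 : ∫ x, p * ‖φ x‖ ^ 2 = p := by rw [integral_const_mul, h1, mul_one]
    have i2 : ∫ x, (1 - p) * ‖φ₂ x‖ ^ 2 = 1 - p := by rw [integral_const_mul, hn2, mul_one]
    rw [i2] at q1
    rw [i1] at q2
    rw [e1, e2]
    have hsC : 0 ≤ s * C := by positivity
    have q3 : s * C ≤ η := by nlinarith
    nlinarith [mul_nonneg hp0 hp0, mul_nonneg (mul_nonneg hp0 hp0) hsC]
  · intro R
    have hA := (hC R).1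
    obtain ⟨C₂, _, hC₂⟩ := pot_bound _ hN2
    have e4 : up_P F R = p * up_P φ R + (1 - p) * up_P φ₂ R := by
      unfold up_P
      rw [← integral_const_mul, ← integral_const_mul,
        ← integral_add (hA.const_mul p) ((hC₂ R).1.const_mul (1 - p))]
      refine integral_congr_ae (Filter.Eventually.of_forall fun x => ?_)
      simp only
      rw [hsq]
      ring
    rw [e4]
    have := mul_nonneg hp1' (hP2' R)
    linarith

end Pool.Agent.Y13.NL
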