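import Mathlib
import Pool.Agent.Y13.NL.Spread
import Pool.Agent.H5R2.NL.JU

/-!
# The upper bound for all numbers of particles

`E₀(N, K) ≤ -L min(N, K z)^{5/3} + δ N^{5/3}` for all large `N` and all `K`, with symmetric trial
functions.
-/

set_option autoImplicit false

noncomputable section

namespace Pool.Agent.Y13.NL

open MeasureTheory Metric Pool.Agent.H5R2.NL
open scoped ENNReal

theorem up_prod_symm {N : ℕ} (f : E3 → ℂ) (σ : Equiv.Perm (Fin N)) (x : Fin N → E3) :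
    up_prod f (x ∘ σ) = up_prod f x := by
  unfold up_prod
  exact Equiv.prod_comp σ fun k => f (x k)

/-- the energy of a product state of which the fraction `p`, `N p = K z`, is near the static
particles -/
theorem energy_p {N K : ℕ} (z l p η : ℝ) (hz : 0 < z) (hl : 0 < l) (hp0 : 0 ≤ p) (hp1 : p ≤ 1)
    (hη : 0 < η) (hNK : (N : ℝ) * p = K * z) (R' : Fin K → E3) (hR' : Function.Injective R')
    (φ : E3 → ℂ) (hφ : Prof φ) :
    ∃ (R : Fin K → E3) (ψ : (Fin N → E3) → ℂ), Function.Injective R ∧ IsState ψ ∧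
      (∀ (σ : Equiv.Perm (Fin N)) (x : Fin N → E3), ψ (x ∘ σ) = ψ x) ∧
      form z R ψ ≤ (K * z) * (l ^ 2 * ∫ x, gsq φ x) + l * (z ^ 2 * Jb K (fun x => ‖φ x‖ ^ 2) R')
        + (N * l ^ 2 + l * (N : ℝ) ^ 2 / 2) * η := by
  obtain ⟨F, hF, hg, hD, hP⟩ := spread φ hφ p η hp0 hp1 hη
  refine ⟨fun j => l⁻¹ • R' j, up_prod (up_sc l F), ?_, ?_, ?_, ?_⟩
  · intro a b hab
    apply hR'
    exact smul_right_injective E3 (inv_ne_zero hl.ne') hab
  · exact up_prod_state _ (up_sc_smooth l F hF.smooth) (up_sc_compact l hl F hF.compact)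
      (by rw [up_sc_integral_sq l hl]; exact hF.norm)
  · exact fun σ x => up_prod_symm _ σ x
  refine (up_form z _ (up_sc l F) (up_sc_smooth l F hF.smooth) (up_sc_compact l hl F hF.compact)
    (by rw [up_sc_integral_sq l hl]; exact hF.norm)).trans ?_
  rw [up_sc_integral_gsq l hl F (hF.smooth.differentiable (by simp)), up_D_sc l hl]
  simp_rw [up_P_sc l hl]
  have h2 : ∀ i j : Fin K, 1 / ‖l⁻¹ • R' i - l⁻¹ • R' j‖ = l * (1 / ‖R' i - R' j‖) := by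
    intro i j
    rw [← smul_sub, norm_smul, norm_inv, Real.norm_of_nonneg hl.le]
    by_cases h : ‖R' i - R' j‖ = 0
    · simp [h]
    · field_simp
  simp_rw [h2, ← Finset.mul_sum]
  unfold Jb
  have h3 : ∑ j, up_P φ (R' j) = ∑ j, ∫ x, ‖φ x‖ ^ 2 / ‖x - R' j‖ := rfl
  have h4 : up_D φ = ∫ x, ∫ y, ‖φ x‖ ^ 2 * ‖φ y‖ ^ 2 / ‖x - y‖ := rfl
  rw [← h3, ← h4]
  have hPs : p * ∑ j, up_P φ (R' j) ≤ ∑ j, up_P F (R' j) := by
    rw [Finset.mul_sum]
    exact Finset.sum_le_sum fun j _ => hP _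
  set P := ∑ j, up_P φ (R' j) with hPdef
  set PF := ∑ j, up_P F (R' j) with hPF
  set D := up_D φ with hDdef
  set DF := up_D F with hDF
  set S := ∑ i, ∑ j, 1 / ‖R' i - R' j‖ with hS
  set T := ∫ x, gsq φ x with hT
  set TF := ∫ x, gsq F x with hTF
  have hN0 : (0 : ℝ) ≤ N := Nat.cast_nonneg N
  have a1 : (N : ℝ) * (l ^ 2 * TF) ≤ N * (l ^ 2 * (p * T + η)) := by gcongr
  have a2 : (N : ℝ) ^ 2 / 2 * (l * DF) ≤ (N : ℝ) ^ 2 / 2 * (l * (p ^ 2 * D + η)) := by gcongr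
  have a3 : z * N * (l * (p * P)) ≤ z * N * (l * PF) := by gcongr
  have a4 : (N : ℝ) * (l ^ 2 * (p * T + η)) = (K * z) * (l ^ 2 * T) + N * l ^ 2 * η := by
    rw [← hNK]; ring
  have a5 : (N : ℝ) ^ 2 / 2 * (l * (p ^ 2 * D + η)) =
      l * ((K * z) ^ 2 / 2 * D) + l * (N : ℝ) ^ 2 / 2 * η := by
    rw [← hNK]; ring
  have a6 : z * N * (l * (p * P)) = l * (z * (K * z) * P) := by
    rw [← hNK]; ring
  have a7 : l * (z ^ 2 * (1 / 2 * S - K * P + (K : ℝ) ^ 2 / 2 * D)) =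
      l * ((K * z) ^ 2 / 2 * D) - l * (z * (K * z) * P) + z ^ 2 / 2 * (l * S) := by ring
  rw [a7]
  linarith

/-- at least as many negative as positive charges -/
theorem upper_excess (z δ : ℝ) (hz : 0 < z) (hδ : 0 < δ) : ∃ K₀ : ℕ, ∀ K N : ℕ,
    K₀ ≤ K → (K : ℝ) * z ≤ N →
    ∃ (R : Fin K → E3) (ψ : (Fin N → E3) → ℂ), Function.Injective R ∧ IsState ψ ∧
      (∀ (σ : Equiv.Perm (Fin N)) (x : Fin N → E3), ψ (x ∘ σ) = ψ x) ∧
      form z R ψ ≤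
        -((z ^ (2 / 3 : ℝ) * cstar) ^ 2 * Gam / 4 - δ) * ((K : ℝ) * z) ^ (5 / 3 : ℝ) := by
  have hcs : 0 ≤ cstar := cstar_nonneg
  have hz23 : 0 < z ^ (2 / 3 : ℝ) := Real.rpow_pos_of_pos hz _
  obtain ⟨φ, hφ, hc, h1, hopt⟩ := up_opt (z ^ (2 / 3 : ℝ) * cstar) (δ / 4) (by positivity)
    (by positivity)
  have hφc : Continuous φ := hφ.continuous
  obtain ⟨K₀, hK₀⟩ := jell_upper (fun x => ‖φ x‖ ^ 2) (by fun_prop)
    (hc.comp_left (g := fun w : ℂ => ‖w‖ ^ 2) (by simp)) (fun x => by positivity) h1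
    (δ / (4 * z ^ (2 / 3 : ℝ))) (by positivity)
  have hX : ∫ x, (‖φ x‖ ^ 2) ^ (4 / 3 : ℝ) = ∫ x, ‖φ x‖ ^ (8 / 3 : ℝ) := by
    refine integral_congr_ae (Filter.Eventually.of_forall fun x => ?_)
    simp only
    rw [← Real.rpow_natCast, ← Real.rpow_mul (norm_nonneg _)]
    norm_num
  rw [hX] at hK₀
  set T := ∫ x, gsq φ x with hTdef
  set X := ∫ x, ‖φ x‖ ^ (8 / 3 : ℝ) with hXdef
  refine ⟨max K₀ 1, ?_⟩
  intro K N hK hNK
  have hKK : K₀ ≤ K := (le_max_left _ _).trans hK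
  have hK1 : (1 : ℝ) ≤ K := by
    have : 1 ≤ K := (le_max_right _ _).trans hK
    exact_mod_cast this
  obtain ⟨R', hR', hJ⟩ := hK₀ K hKK
  set m : ℝ := (K : ℝ) * z with hm
  have hmpos : 0 < m := by positivity
  have hNpos : (0 : ℝ) < N := hmpos.trans_le hNK
  set l := m ^ (1 / 3 : ℝ) with hl
  have hlpos : 0 < l := Real.rpow_pos_of_pos hmpos _
  have p53 : m ^ (5 / 3 : ℝ) = l ^ 5 := by
    rw [hl, ← Real.rpow_natCast, ← Real.rpow_mul hmpos.le]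
    norm_num
  have p43 : m ^ (4 / 3 : ℝ) = l ^ 4 := by
    rw [hl, ← Real.rpow_natCast, ← Real.rpow_mul hmpos.le]
    norm_num
  have hl3 : l ^ 3 = m := by
    rw [hl, ← Real.rpow_natCast, ← Real.rpow_mul hmpos.le]
    norm_num
  set q : ℝ := N * l ^ 2 + l * (N : ℝ) ^ 2 / 2 with hq
  have hq0 : 0 < q := by positivity
  obtain ⟨R, ψ, hR, hψ, hsym, hE⟩ := energy_p (N := N) z l (m / N) (δ / 4 * l ^ 5 / q) hz hlpos
    (by positivity) (by rw [div_le_one hNpos]; exact hNK) (by positivity)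
    (by rw [mul_div_cancel₀ _ hNpos.ne']) R' hR' φ ⟨hφ, hc, h1⟩
  refine ⟨R, ψ, hR, hψ, hsym, hE.trans ?_⟩
  rw [← hq, ← hTdef, ← hm]
  have hzK : z ^ 2 * (K : ℝ) ^ (4 / 3 : ℝ) = z ^ (2 / 3 : ℝ) * l ^ 4 := by
    rw [← p43, hm, Real.mul_rpow (by positivity) hz.le]
    have e4 : z ^ 2 = z ^ (2 / 3 : ℝ) * z ^ (4 / 3 : ℝ) := by
      rw [← Real.rpow_add hz, ← Real.rpow_natCast]; norm_num
    rw [e4]; ring
  have hJ' : z ^ 2 * Jb K (fun x => ‖φ x‖ ^ 2) R' ≤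
      -(z ^ (2 / 3 : ℝ) * cstar * X) * l ^ 4 + δ / 4 * l ^ 4 := by
    have h12 := mul_le_mul_of_nonneg_left hJ (sq_nonneg z)
    have h13 : z ^ 2 * (-(cstar * X - δ / (4 * z ^ (2 / 3 : ℝ))) * (K : ℝ) ^ (4 / 3 : ℝ)) =
        -(cstar * X - δ / (4 * z ^ (2 / 3 : ℝ))) * (z ^ 2 * (K : ℝ) ^ (4 / 3 : ℝ)) := by ring
    rw [h13, hzK] at h12
    refine h12.trans (le_of_eq ?_)
    field_simp
    ring
  have q1 := mul_le_mul_of_nonneg_left hJ' hlpos.le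
  have q2 : q * (δ / 4 * l ^ 5 / q) = δ / 4 * l ^ 5 := by field_simp
  have q3 : m * (l ^ 2 * T) = l ^ 5 * T := by rw [← hl3]; ring
  have q6 : l ^ 5 * (T - z ^ (2 / 3 : ℝ) * cstar * X) ≤
      l ^ 5 * (-((z ^ (2 / 3 : ℝ) * cstar) ^ 2 * Gam / 4 - δ / 4)) :=
    mul_le_mul_of_nonneg_left hopt (by positivity)
  rw [p53, q3, q2]
  have q7 : 0 ≤ δ / 4 * l ^ 5 := by positivity
  nlinarith [q1, q6, q7]

/-! ### static particles far away -/

theorem exists_far {K : ℕ} (R : Fin K → E3) (M : ℝ) : ∃ p : E3, ∀ j, M < ‖R j - p‖ := by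
  set B : ℝ := ∑ j, ‖R j‖ with hB
  have hB0 : 0 ≤ B := Finset.sum_nonneg fun j _ => norm_nonneg _
  refine ⟨EuclideanSpace.single 0 (B + |M| + 1), fun j => ?_⟩
  have h1 : ‖(EuclideanSpace.single 0 (B + |M| + 1) : E3)‖ = B + |M| + 1 := by
    rw [PiLp.norm_single, Real.norm_of_nonneg (by positivity)]
  have h2 : ‖R j‖ ≤ B := Finset.single_le_sum (f := fun j => ‖R j‖) (fun _ _ => norm_nonneg _)
    (Finset.mem_univ j)
  have h3 := norm_sub_norm_le (EuclideanSpace.single 0 (B + |M| + 1) : E3) (R j)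
  rw [h1, norm_sub_rev] at h3
  have := le_abs_self M
  linarith

theorem coul_snoc {N K : ℕ} (z : ℝ) (x : Fin N → E3) (R : Fin K → E3) (p : E3) :
    coul z x (Fin.snoc (α := fun _ => E3) R p) = coul z x R - z * ∑ i, 1 / ‖x i - p‖
      + z ^ 2 * ∑ j, 1 / ‖R j - p‖ := by
  unfold coul
  simp only [Fin.sum_univ_castSucc, Fin.snoc_castSucc, Fin.snoc_last, Finset.sum_add_distrib,
    sub_self, norm_zero, div_zero, add_zero]
  have h : ∀ j, ‖p - R j‖ = ‖R j - p‖ := fun j => norm_sub_rev _ _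
  simp_rw [h]
  ring

theorem integrable_coul {N K : ℕ} (z : ℝ) (R : Fin K → E3) (ψ : (Fin N → E3) → ℂ)
    (hψ : IsState ψ) : Integrable (fun x => coul z x R * ‖ψ x‖ ^ 2) := by
  have hψc := hψ.smooth.continuous
  have hψs := hψ.compact
  have hee := fun i j => integrable_ee ψ hψc hψs i j
  have hen := fun i R => integrable_en ψ hψc hψs i R
  have hnn : Integrable fun x : Fin N → E3 => ‖ψ x‖ ^ 2 := by
    refine Continuous.integrable_of_hasCompactSupport (by fun_prop) ?_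
    exact hψs.comp_left (g := fun z : ℂ => ‖z‖ ^ 2) (by simp)
  have hexp : (fun x => coul z x R * ‖ψ x‖ ^ 2) = fun x =>
      (1 / 2 * ∑ i, ∑ j, 1 / ‖x i - x j‖ * ‖ψ x‖ ^ 2
        - z * ∑ i, ∑ j, 1 / ‖x i - R j‖ * ‖ψ x‖ ^ 2)
        + (z ^ 2 / 2 * ∑ i, ∑ j, 1 / ‖R i - R j‖) * ‖ψ x‖ ^ 2 := by
    funext x
    unfold coul
    simp only [Finset.mul_sum, Finset.sum_mul, add_mul, sub_mul]
    congr 1
    congr 1
    · refine Finset.sum_congr rfl fun i _ => Finset.sum_congr rfl fun j _ => by ring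
    · refine Finset.sum_congr rfl fun i _ => Finset.sum_congr rfl fun j _ => by ring
  rw [hexp]
  have i1 : Integrable fun x : Fin N → E3 =>
      1 / 2 * ∑ i, ∑ j, 1 / ‖x i - x j‖ * ‖ψ x‖ ^ 2 :=
    (integrable_finsetSum _ fun i _ => integrable_finsetSum _ fun j _ => hee i j).const_mul _
  have i2 : Integrable fun x : Fin N → E3 =>
      z * ∑ i, ∑ j, 1 / ‖x i - R j‖ * ‖ψ x‖ ^ 2 :=
    (integrable_finsetSum _ fun i _ => integrable_finsetSum _ fun j _ => hen i (R j)).const_mul _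
  exact (i1.sub i2).add (hnn.const_mul _)

/-- one more static particle, far away -/
theorem add_far {N K : ℕ} (z : ℝ) (hz : 0 < z) (R : Fin K → E3) (hR : Function.Injective R)
    (ψ : (Fin N → E3) → ℂ) (hψ : IsState ψ) (η : ℝ) (hη : 0 < η) :
    ∃ R' : Fin (K + 1) → E3, Function.Injective R' ∧ form z R' ψ ≤ form z R ψ + η := by
  obtain ⟨p, hp⟩ := exists_far R (z ^ 2 * K / η + 1)
  have hM : 0 ≤ z ^ 2 * K / η := by positivity
  have hpos : ∀ j, 0 < ‖R j - p‖ := fun j => by have := hp j; linarith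
  have hnn : Integrable fun x : Fin N → E3 => ‖ψ x‖ ^ 2 := by
    refine Continuous.integrable_of_hasCompactSupport
      (by have := hψ.smooth.continuous; fun_prop) ?_
    exact hψ.compact.comp_left (g := fun z : ℂ => ‖z‖ ^ 2) (by simp)
  refine ⟨Fin.snoc (α := fun _ => E3) R p, ?_, ?_⟩
  · intro a b hab
    induction a using Fin.lastCases with
    | last =>
      induction b using Fin.lastCases with
      | last => rfl
      | cast b =>
        exfalso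
        simp only [Fin.snoc_last, Fin.snoc_castSucc] at hab
        have := hpos b
        rw [← hab, sub_self, norm_zero] at this
        exact lt_irrefl _ this
    | cast a =>
      induction b using Fin.lastCases with
      | last =>
        exfalso
        simp only [Fin.snoc_last, Fin.snoc_castSucc] at hab
        have := hpos a
        rw [hab, sub_self, norm_zero] at this
        exact lt_irrefl _ this
      | cast b =>
        simp only [Fin.snoc_castSucc] at hab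
        rw [hR hab]
  · have hS : z ^ 2 * ∑ j, 1 / ‖R j - p‖ ≤ η := by
      rcases Nat.eq_zero_or_pos K with hK | hK
      · subst hK; simp; exact hη.le
      have hK' : (0 : ℝ) < K := by exact_mod_cast hK
      have h1 : ∀ j, 1 / ‖R j - p‖ ≤ η / (z ^ 2 * K) := by
        intro j
        rw [div_le_div_iff₀ (hpos j) (by positivity), one_mul]
        have h2 := hp j
        have h3 : z ^ 2 * K / η < ‖R j - p‖ := by linarith
        rw [div_lt_iff₀ hη] at h3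
        linarith
      have h4 : ∑ j : Fin K, 1 / ‖R j - p‖ ≤ K * (η / (z ^ 2 * K)) := by
        refine (Finset.sum_le_sum fun j _ => h1 j).trans (le_of_eq ?_)
        simp
      calc z ^ 2 * ∑ j, 1 / ‖R j - p‖ ≤ z ^ 2 * (K * (η / (z ^ 2 * K))) :=
            mul_le_mul_of_nonneg_left h4 (sq_nonneg z)
        _ = η := by field_simp
    unfold form
    have h5 : ∫ x, coul z x (Fin.snoc (α := fun _ => E3) R p) * ‖ψ x‖ ^ 2 ≤
        ∫ x, (coul z x R * ‖ψ x‖ ^ 2 + η * ‖ψ x‖ ^ 2) := by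
      refine integral_mono (integrable_coul z _ ψ hψ)
        ((integrable_coul z R ψ hψ).add (hnn.const_mul η)) fun x => ?_
      simp only
      rw [← add_mul]
      refine mul_le_mul_of_nonneg_right ?_ (sq_nonneg _)
      rw [coul_snoc]
      have h6 : 0 ≤ z * ∑ i, 1 / ‖x i - p‖ :=
        mul_nonneg hz.le (Finset.sum_nonneg fun i _ => by positivity)
      linarith
    have h7 : ∫ x, (coul z x R * ‖ψ x‖ ^ 2 + η * ‖ψ x‖ ^ 2) =
        (∫ x, coul z x R * ‖ψ x‖ ^ 2) + η := by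
      rw [integral_add (integrable_coul z R ψ hψ) (hnn.const_mul η), integral_const_mul,
        hψ.normalized, mul_one]
    linarith

/-- more static particles, far away -/
theorem add_far_many {N K K' : ℕ} (hKK : K ≤ K') (z : ℝ) (hz : 0 < z) (R : Fin K → E3)
    (hR : Function.Injective R) (ψ : (Fin N → E3) → ℂ) (hψ : IsState ψ) (η : ℝ) (hη : 0 < η) :
    ∃ R' : Fin K' → E3, Function.Injective R' ∧ form z R' ψ ≤ form z R ψ + η := by
  induction K', hKK using Nat.le_induction generalizing η with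
  | base => exact ⟨R, hR, by linarith⟩
  | succ n _ ih =>
    obtain ⟨R₁, hR₁, h₁⟩ := ih (η / 2) (by positivity)
    obtain ⟨R₂, hR₂, h₂⟩ := add_far z hz R₁ hR₁ ψ hψ (η / 2) (by positivity)
    exact ⟨R₂, hR₂, by linarith⟩

/-- no static particles: the energy can be made as small as we wish -/
theorem upper_none {N : ℕ} (z η : ℝ) (hz : 0 < z) (hη : 0 < η) :
    ∃ (R : Fin 0 → E3) (ψ : (Fin N → E3) → ℂ), Function.Injective R ∧ IsState ψ ∧
      (∀ (σ : Equiv.Perm (Fin N)) (x : Fin N → E3), ψ (x ∘ σ) = ψ x) ∧ form z R ψ ≤ η := by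
  obtain ⟨u, h1, h2, h3⟩ := up_exists_state
  have hq0 : (0 : ℝ) < N * 1 ^ 2 + 1 * (N : ℝ) ^ 2 / 2 + 1 := by positivity
  obtain ⟨R, ψ, hR, hψ, hsym, hE⟩ := energy_p (N := N) (K := 0) z 1 0
    (η / (N * 1 ^ 2 + 1 * (N : ℝ) ^ 2 / 2 + 1)) hz one_pos le_rfl zero_le_one (by positivity)
    (by simp) (fun j => j.elim0) (fun a => a.elim0) u ⟨h1, h2, h3⟩
  refine ⟨R, ψ, hR, hψ, hsym, hE.trans ?_⟩
  have hJ : Jb ((0 : ℕ) : ℝ) (fun x => ‖u x‖ ^ 2) (fun j : Fin 0 => (j.elim0 : E3)) = 0 := by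
    unfold Jb
    simp
  rw [hJ]
  have : (N * 1 ^ 2 + 1 * (N : ℝ) ^ 2 / 2) * (η / (N * 1 ^ 2 + 1 * (N : ℝ) ^ 2 / 2 + 1)) ≤ η := by
    rw [← mul_div_assoc, div_le_iff₀ hq0]
    nlinarith
  simp only [Nat.cast_zero, zero_mul, mul_zero, add_zero, zero_add]
  exact this

/-- `(m - z)^{5/3} ≥ m^{5/3} - (5/3) z m^{2/3}` -/
theorem bern53 (m z : ℝ) (hm : 0 < m) (hzm : z ≤ m) :
    m ^ (5 / 3 : ℝ) - 5 / 3 * z * m ^ (2 / 3 : ℝ) ≤ (m - z) ^ (5 / 3 : ℝ) := by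
  have h8 : z / m ≤ 1 := by rw [div_le_one hm]; exact hzm
  have h := one_add_mul_self_le_rpow_one_add (s := -(z / m)) (by linarith) (p := 5 / 3)
    (by norm_num)
  have h7 : m - z = m * (1 + -(z / m)) := by field_simp; ring
  rw [h7, Real.mul_rpow hm.le (by linarith)]
  have h9 : m ^ (5 / 3 : ℝ) = m * m ^ (2 / 3 : ℝ) := by
    nth_rewrite 2 [← Real.rpow_one m]
    rw [← Real.rpow_add hm]; norm_num
  have h10 := mul_le_mul_of_nonneg_left h (show 0 ≤ m ^ (5 / 3 : ℝ) by positivity)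
  refine le_trans (le_of_eq ?_) h10
  rw [h9]
  field_simp
  ring

/-- arithmetic -/
theorem arith1 (L V M A B U Y N δ : ℝ) (hA : 0 ≤ A) (hB : 0 ≤ B) (hU : 1 ≤ U) (hY : Y = N * U)
    (hδ : 0 < δ) (hN : 1 ≤ N) (hVY : V ≤ Y) (hW : A + B + 1 ≤ δ / 4 * N)
    (h : L * M - B * U - A ≤ L * V) : -(L - δ / 4) * V + δ / 4 ≤ -L * M + δ * Y := by
  have h1 : (A + B + 1) * U ≤ δ / 4 * Y := by
    have := mul_le_mul_of_nonneg_right hW (show 0 ≤ U by linarith)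
    rw [hY]; linarith
  have h2 : A ≤ A * U := le_mul_of_one_le_right hA hU
  have h3 : 1 ≤ Y := by rw [hY]; nlinarith
  have h4 : δ / 4 * V ≤ δ / 4 * Y := by gcongr
  have h5 : δ / 4 * 1 ≤ δ / 4 * Y := by gcongr
  have h6 : (A + B + 1) * U = A * U + B * U + U := by ring
  have h7 : -(L - δ / 4) * V = -(L * V) + δ / 4 * V := by ring
  rw [h7]
  linarith

/-- the upper bound for all `K` -/
theorem upper_all (z δ : ℝ) (hz : 0 < z) (hδ : 0 < δ) : ∃ N₀ : ℕ, ∀ K N : ℕ, N₀ ≤ N →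
    ∃ (R : Fin K → E3) (ψ : (Fin N → E3) → ℂ), Function.Injective R ∧ IsState ψ ∧
      (∀ (σ : Equiv.Perm (Fin N)) (x : Fin N → E3), ψ (x ∘ σ) = ψ x) ∧
      form z R ψ ≤ -((z ^ (2 / 3 : ℝ) * cstar) ^ 2 * Gam / 4) *
        (min (N : ℝ) (K * z)) ^ (5 / 3 : ℝ) + δ * (N : ℝ) ^ (5 / 3 : ℝ) := by
  set L : ℝ := (z ^ (2 / 3 : ℝ) * cstar) ^ 2 * Gam / 4 with hL
  have hcs : 0 ≤ cstar := cstar_nonneg
  have hG : 0 ≤ Gam := sob_gam_nonneg
  have hL0 : 0 ≤ L := by positivity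
  obtain ⟨K₀, hK₀⟩ := upper_excess z (δ / 4) hz (by positivity)
  set W : ℝ := 1 + (L * (((K₀ : ℝ) + 1) * z) ^ (5 / 3 : ℝ) + L * (5 / 3 * z) + 1) * (4 / δ) with hW
  have hW0 : 0 ≤ L * (((K₀ : ℝ) + 1) * z) ^ (5 / 3 : ℝ) := by positivity
  refine ⟨⌈W⌉₊, fun K N hN => ?_⟩
  have hNW : W ≤ N := (Nat.le_ceil W).trans (by exact_mod_cast hN)
  have hW1 : 1 ≤ W := by
    rw [hW]
    have : 0 ≤ (L * (((K₀ : ℝ) + 1) * z) ^ (5 / 3 : ℝ) + L * (5 / 3 * z) + 1) * (4 / δ) := by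
      positivity
    linarith
  have hN1 : (1 : ℝ) ≤ N := hW1.trans hNW
  have hNpos : (0 : ℝ) < N := by linarith
  have hWδ : L * (((K₀ : ℝ) + 1) * z) ^ (5 / 3 : ℝ) + L * (5 / 3 * z) + 1 ≤ δ / 4 * N := by
    have h1 : (L * (((K₀ : ℝ) + 1) * z) ^ (5 / 3 : ℝ) + L * (5 / 3 * z) + 1) * (4 / δ) ≤ N := by
      linarith
    have h2 := mul_le_mul_of_nonneg_left h1 (show 0 ≤ δ / 4 by positivity)
    have h3 : δ / 4 * ((L * (((K₀ : ℝ) + 1) * z) ^ (5 / 3 : ℝ) + L * (5 / 3 * z) + 1) * (4 / δ)) =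
        L * (((K₀ : ℝ) + 1) * z) ^ (5 / 3 : ℝ) + L * (5 / 3 * z) + 1 := by field_simp
    linarith
  have hLz : 0 ≤ L * (5 / 3 * z) := by positivity
  set Y : ℝ := (N : ℝ) ^ (5 / 3 : ℝ) with hY
  have hYN : (N : ℝ) ≤ Y := by
    have := Real.rpow_le_rpow_of_exponent_le hN1 (show (1 : ℝ) ≤ 5 / 3 by norm_num)
    rwa [Real.rpow_one] at this
  have hY23 : (N : ℝ) ^ (2 / 3 : ℝ) ≤ N := by
    have := Real.rpow_le_rpow_of_exponent_le hN1 (show (2 / 3 : ℝ) ≤ 1 by norm_num)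
    rwa [Real.rpow_one] at this
  have hY1 : 1 ≤ Y := hN1.trans hYN
  set m : ℝ := min (N : ℝ) (K * z) with hm
  have hKz0 : (0 : ℝ) ≤ K * z := by positivity
  have hm0 : 0 ≤ m := le_min hNpos.le hKz0
  have hmN : m ≤ N := min_le_left _ _
  have hf1 : ((⌊(N : ℝ) / z⌋₊ : ℕ) : ℝ) * z ≤ N := by
    have := Nat.floor_le (show (0 : ℝ) ≤ N / z by positivity)
    rwa [le_div_iff₀ hz] at this
  have hf2 : (N : ℝ) ≤ (⌊(N : ℝ) / z⌋₊ : ℕ) * z + z := by
    have := (Nat.lt_floor_add_one ((N : ℝ) / z)).le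
    rw [div_le_iff₀ hz] at this
    linarith
  have key : ∃ K₁ : ℕ, K₁ ≤ K ∧ (K₁ : ℝ) * z ≤ N ∧ m ≤ K₁ * z + z := by
    by_cases h : K ≤ ⌊(N : ℝ) / z⌋₊
    · refine ⟨K, le_rfl, ?_, ?_⟩
      · have : (K : ℝ) ≤ (⌊(N : ℝ) / z⌋₊ : ℕ) := by exact_mod_cast h
        exact (mul_le_mul_of_nonneg_right this hz.le).trans hf1
      · have := min_le_right (N : ℝ) (K * z)
        linarith
    · exact ⟨⌊(N : ℝ) / z⌋₊, (not_le.1 h).le, hf1, hmN.trans hf2⟩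
  obtain ⟨K₁, hK₁, h2, h3⟩ := key
  by_cases hcase : K₀ ≤ K₁
  · obtain ⟨R, ψ, hR, hψ, hsym, hE⟩ := hK₀ K₁ N hcase h2
    obtain ⟨R', hR', hE'⟩ := add_far_many hK₁ z hz R hR ψ hψ (δ / 4) (by positivity)
    refine ⟨R', ψ, hR', hψ, hsym, hE'.trans ?_⟩
    have hK1z : (0 : ℝ) ≤ K₁ * z := by positivity
    -- compare `(K₁ z)^{5/3}` and `m^{5/3}`
    have hcmp : m ^ (5 / 3 : ℝ) - 5 / 3 * z * (N : ℝ) ^ (2 / 3 : ℝ) - (((K₀ : ℝ) + 1) * z) ^ (5 / 3 : ℝ) ≤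
        ((K₁ : ℝ) * z) ^ (5 / 3 : ℝ) := by
      by_cases hmz : z < m
      · have hmpos : 0 < m := hz.trans hmz
        have h4 := bern53 m z hmpos hmz.le
        have h5 : (m - z) ^ (5 / 3 : ℝ) ≤ ((K₁ : ℝ) * z) ^ (5 / 3 : ℝ) :=
          Real.rpow_le_rpow (by linarith) (by linarith) (by norm_num)
        have h6 : m ^ (2 / 3 : ℝ) ≤ (N : ℝ) ^ (2 / 3 : ℝ) :=
          Real.rpow_le_rpow hm0 hmN (by norm_num)
        have h7 : 5 / 3 * z * m ^ (2 / 3 : ℝ) ≤ 5 / 3 * z * (N : ℝ) ^ (2 / 3 : ℝ) := by gcongr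
        have h8 : 0 ≤ (((K₀ : ℝ) + 1) * z) ^ (5 / 3 : ℝ) := by positivity
        linarith
      · have h4 : m ^ (5 / 3 : ℝ) ≤ (((K₀ : ℝ) + 1) * z) ^ (5 / 3 : ℝ) := by
          refine Real.rpow_le_rpow hm0 ?_ (by norm_num)
          have : 0 ≤ (K₀ : ℝ) * z := by positivity
          linarith [not_lt.1 hmz]
        have h5 : 0 ≤ ((K₁ : ℝ) * z) ^ (5 / 3 : ℝ) := by positivity
        have h6 : 0 ≤ 5 / 3 * z * (N : ℝ) ^ (2 / 3 : ℝ) := by positivity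
        linarith
    have hle : ((K₁ : ℝ) * z) ^ (5 / 3 : ℝ) ≤ Y := Real.rpow_le_rpow hK1z h2 (by norm_num)
    have hYU : Y = N * (N : ℝ) ^ (2 / 3 : ℝ) := by
      rw [hY]
      nth_rewrite 2 [← Real.rpow_one (N : ℝ)]
      rw [← Real.rpow_add hNpos]; norm_num
    have hU1 : 1 ≤ (N : ℝ) ^ (2 / 3 : ℝ) := Real.one_le_rpow hN1 (by norm_num)
    have r1 : L * m ^ (5 / 3 : ℝ) - L * (5 / 3 * z) * (N : ℝ) ^ (2 / 3 : ℝ) -
        L * (((K₀ : ℝ) + 1) * z) ^ (5 / 3 : ℝ) ≤ L * ((K₁ : ℝ) * z) ^ (5 / 3 : ℝ) := by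
      refine le_trans (le_of_eq ?_) (mul_le_mul_of_nonneg_left hcmp hL0)
      ring
    have r2 := arith1 L (((K₁ : ℝ) * z) ^ (5 / 3 : ℝ)) (m ^ (5 / 3 : ℝ))
      (L * (((K₀ : ℝ) + 1) * z) ^ (5 / 3 : ℝ)) (L * (5 / 3 * z)) ((N : ℝ) ^ (2 / 3 : ℝ)) Y N δ
      hW0 hLz hU1 hYU hδ hN1 hle hWδ r1
    rw [← hL] at hE
    linarith
  · obtain ⟨R, ψ, hR, hψ, hsym, hE⟩ := upper_none (N := N) z (δ / 4) hz (by positivity)
    obtain ⟨R', hR', hE'⟩ := add_far_many (Nat.zero_le K) z hz R hR ψ hψ (δ / 4) (by positivity)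
    refine ⟨R', ψ, hR', hψ, hsym, hE'.trans ?_⟩
    have h4 : m ^ (5 / 3 : ℝ) ≤ (((K₀ : ℝ) + 1) * z) ^ (5 / 3 : ℝ) := by
      refine Real.rpow_le_rpow hm0 (h3.trans ?_) (by norm_num)
      have : (K₁ : ℝ) ≤ K₀ := by exact_mod_cast (not_le.1 hcase).le
      nlinarith
    have h5 := mul_le_mul_of_nonneg_left h4 hL0
    have h6 : δ / 4 * N ≤ δ / 4 * Y := by gcongr
    have h7 : δ / 2 * 1 ≤ δ / 2 * Y := by gcongr
    have h8 : -L * m ^ (5 / 3 : ℝ) = -(L * m ^ (5 / 3 : ℝ)) := by ring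
    rw [h8]
    linarith

end Pool.Agent.Y13.NL
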