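import Mathlib
import Pool.Agent.H5R2.NL.H1Main
import Pool.Agent.Y13.NL.UpY
import Pool.Agent.Y13.NL.Pos

/-!
# The `N^{5/3}` law for all numbers of static particles
-/

set_option autoImplicit false

noncomputable section

namespace Pool.Agent.Y13.NL

open MeasureTheory Metric Pool.Agent.H5R2.NL

/-- The energies `⟨ψ, H_{N,R} ψ⟩` of all normalised `ψ ∈ H¹(ℝ^{3N})` which do not change under
permutations of the `N` particles (bosons), for all positions of the `K` static particles. -/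
def energiesB (z : ℝ) (K N : ℕ) : Set ℝ :=
  {e | ∃ R : Fin K → E3, Function.Injective R ∧ ∃ (ψ : (Fin N → E3) → ℂ)
    (g : Fin N → Fin 3 → (Fin N → E3) → ℂ), IsH1 ψ g ∧ ∫ x, ‖ψ x‖ ^ 2 = 1 ∧
    (∀ (σ : Equiv.Perm (Fin N)) (x : Fin N → E3), ψ (x ∘ σ) = ψ x) ∧ formH1 z R ψ g = e}

/-- The ground state energy of the bosons. -/
def E0B (z : ℝ) (K N : ℕ) : ℝ := sInf (energiesB z K N)

/-- The ground state energy of `N` particles when also the number of static particles is free. -/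
def Efree (z : ℝ) (N : ℕ) : ℝ := sInf (⋃ K, energiesH1 z K N)

/-- The constant of the law. -/
def lawC (z : ℝ) : ℝ := z ^ (4 / 3 : ℝ) * cstar ^ 2 * Gam / 4

theorem lawC_eq (z : ℝ) (hz : 0 < z) : lawC z = (z ^ (2 / 3 : ℝ) * cstar) ^ 2 * Gam / 4 := by
  unfold lawC
  have : z ^ (4 / 3 : ℝ) = (z ^ (2 / 3 : ℝ)) ^ 2 := by
    rw [← Real.rpow_natCast, ← Real.rpow_mul hz.le]; norm_num
  rw [this]; ring

theorem energiesB_sub (z : ℝ) (K N : ℕ) : energiesB z K N ⊆ energiesH1 z K N := by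
  rintro e ⟨R, hR, ψ, g, h1, h2, _, h3⟩
  exact ⟨R, hR, ψ, g, h1, h2, h3⟩

/-- the lower bound for every `K` and the upper bound for every `K` -/
theorem both (z : ℝ) (hz : 0 < z) (ε : ℝ) (hε : 0 < ε) : ∃ N₀ : ℕ, ∀ N : ℕ, N₀ ≤ N →
    1 ≤ N ∧ ∀ K : ℕ,
    (∀ e ∈ energiesH1 z K N, -(lawC z + ε) * (N : ℝ) ^ (5 / 3 : ℝ) ≤ e) ∧
    ∃ e ∈ energiesB z K N, e ≤ -lawC z * (min (N : ℝ) (K * z)) ^ (5 / 3 : ℝ)
      + ε * (N : ℝ) ^ (5 / 3 : ℝ) := by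
  obtain ⟨N₁, h₁⟩ := upper_all z ε hz hε
  obtain ⟨N₂, h₂⟩ := lower_main z ε hz hε
  rw [← lawC_eq z hz] at h₁ h₂
  refine ⟨max (max N₁ N₂) 1, fun N hN => ?_⟩
  have hN1 : N₁ ≤ N := le_trans (le_trans (le_max_left _ _) (le_max_left _ _)) hN
  have hN2 : N₂ ≤ N := le_trans (le_trans (le_max_right _ _) (le_max_left _ _)) hN
  refine ⟨le_trans (le_max_right _ _) hN, fun K => ⟨?_, ?_⟩⟩
  · rintro e ⟨R', hR', ψ', g', hH, hnorm, rfl⟩
    have hb := (h1_form z (-(lawC z + ε) * (N : ℝ) ^ (5 / 3 : ℝ)) R' ψ' g' hH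
      (fun u hu hc => lower_hom z (-(lawC z + ε) * (N : ℝ) ^ (5 / 3 : ℝ)) R'
        (fun φ hφ => h₂ K N hN2 R' φ hR' hφ) u hu hc)).2
    rw [hnorm, mul_one] at hb
    exact hb
  · obtain ⟨R, ψ, hR, hψ, hsym, hup⟩ := h₁ K N hN1
    exact ⟨form z R ψ, ⟨R, hR, ψ, fun i c x => fderiv ℝ ψ x (dir i c),
      isH1_of_smooth ψ hψ.smooth hψ.compact, hψ.normalized, hsym, formH1_smooth z R ψ hψ⟩, hup⟩

end Pool.Agent.Y13.NL
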